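import Mathlib

/-!
# Integer matrices `A` with `det A = det A^{∘2} = 1` and no entry in `{-1, 0, 1}`

For `t ≥ 3` put `a = (t, t + 1, 2 t + 1)`, `b = (t - 1, t, 2 t - 1)`.  The third rows
`c = (x, y, x + y + 1)` with `det A = det A^{∘2} = 1` correspond to the factorisations of
`K = P² (2 t + 1) (2 t - 1) - (t + 1) (t - 1)`, `P = 2 t² - 1`; the factorisation `K = 1 · K` gives
the family below.
-/

set_option autoImplicit false

namespace Pool.Agent.Results.MP_197ffd_nt.InfinitelyMany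

/-- The set of the problem: `3 × 3` integer matrices without entries in `{-1, 0, 1}`, of
determinant `1`, such that the matrix of the squares of the entries has determinant `1`. -/
def S : Set (Matrix (Fin 3) (Fin 3) ℤ) :=
  {A | (∀ i j, 2 ≤ |A i j|) ∧ A.det = 1 ∧ (A.map (fun x => x ^ 2)).det = 1}

/-- the first entry of the third row, with `t = n + 3` -/
def fx (n : ℤ) : ℤ :=
  29830 + 73016 * n + 75921 * n ^ 2 + 43475 * n ^ 3 + 14812 * n ^ 4 + 3004 * n ^ 5 + 336 * n ^ 6 +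
    16 * n ^ 7

/-- the second entry of the third row, with `t = n + 3` -/
def fy (n : ℤ) : ℤ :=
  39734 + 94014 * n + 94216 * n ^ 2 + 51867 * n ^ 3 + 16952 * n ^ 4 + 3292 * n ^ 5 + 352 * n ^ 6 +
    16 * n ^ 7

/-- the family -/
def fam (n : ℤ) : Matrix (Fin 3) (Fin 3) ℤ :=
  !![n + 3, n + 4, 2 * n + 7; n + 2, n + 3, 2 * n + 5; fx n, fy n, fx n + fy n + 1]

theorem det_fam (n : ℤ) : (fam n).det = 1 := by
  rw [Matrix.det_fin_three]
  simp [fam]
  ring

theorem det_sq_fam (n : ℤ) : ((fam n).map (fun x => x ^ 2)).det = 1 := by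
  rw [Matrix.det_fin_three]
  simp [fam, fx, fy]
  ring

theorem fam_ge (n : ℕ) (i j : Fin 3) : (n : ℤ) + 2 ≤ fam n i j := by
  have h0 : (0 : ℤ) ≤ n := Int.natCast_nonneg n
  have hx : (n : ℤ) + 2 ≤ fx n := by
    unfold fx
    have : (0 : ℤ) ≤ 29828 + 73015 * (n : ℤ) + 75921 * (n : ℤ) ^ 2 + 43475 * (n : ℤ) ^ 3 +
      14812 * (n : ℤ) ^ 4 + 3004 * (n : ℤ) ^ 5 + 336 * (n : ℤ) ^ 6 + 16 * (n : ℤ) ^ 7 := by
      positivity
    linarith
  have hy : (n : ℤ) + 2 ≤ fy n := by
    unfold fy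
    have : (0 : ℤ) ≤ 39732 + 94013 * (n : ℤ) + 94216 * (n : ℤ) ^ 2 + 51867 * (n : ℤ) ^ 3 +
      16952 * (n : ℤ) ^ 4 + 3292 * (n : ℤ) ^ 5 + 352 * (n : ℤ) ^ 6 + 16 * (n : ℤ) ^ 7 := by
      positivity
    linarith
  fin_cases i <;> fin_cases j <;> simp [fam] <;> linarith

/-- For every `N` there are infinitely many matrices in `S` all of whose entries are at least
`N`. In particular `S` is infinite. -/
theorem result : ∀ N : ℤ, {A | A ∈ S ∧ ∀ i j, N ≤ A i j}.Infinite := by
  intro N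
  have hinj : Function.Injective (fun n : ℕ => fam ((n + N.toNat : ℕ) : ℤ)) := by
    intro m n h
    have h1 := congrFun (congrFun h 0) 0
    simp [fam] at h1
    exact h1
  refine Set.infinite_of_injective_forall_mem hinj (fun n => ?_)
  have hN : N ≤ ((n + N.toNat : ℕ) : ℤ) := by
    have := Int.self_le_toNat N
    push_cast
    linarith [Int.natCast_nonneg n]
  refine ⟨⟨fun i j => ?_, det_fam _, det_sq_fam _⟩, fun i j => ?_⟩
  · have h1 := fam_ge (n + N.toNat) i j
    have h2 : (0 : ℤ) ≤ ((n + N.toNat : ℕ) : ℤ) := Int.natCast_nonneg _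
    exact le_trans (by linarith) (le_abs_self _)
  · have h1 := fam_ge (n + N.toNat) i j
    linarith

end Pool.Agent.Results.MP_197ffd_nt.InfinitelyMany
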